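import Pool.Agent.Y283.CSL.Fin

set_option maxHeartbeats 4000000

open Finset

namespace Pool.Agent.Results.MP_b027ec_an.RadicalDistance

/-- A commutative subspace lattice on the Hilbert space `H`.  Closed subspaces are identified with
their orthogonal projections: it is a set of pairwise commuting orthogonal projections on `H`
which contains `0` and `1`, is closed under meets (`P * Q`) and joins (`P + Q - P * Q`), and is
closed in the strong operator topology. -/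
structure CSL (H : Type*) [NormedAddCommGroup H] [InnerProductSpace ℂ H] [CompleteSpace H] where
  /-- the projections in the lattice -/
  carrier : Set (H →L[ℂ] H)
  proj : ∀ P ∈ carrier, IsStarProjection P
  comm : ∀ P ∈ carrier, ∀ Q ∈ carrier, P * Q = Q * P
  zero_mem : (0 : H →L[ℂ] H) ∈ carrier
  one_mem : (1 : H →L[ℂ] H) ∈ carrier
  inf_mem : ∀ P ∈ carrier, ∀ Q ∈ carrier, P * Q ∈ carrier
  sup_mem : ∀ P ∈ carrier, ∀ Q ∈ carrier, P + Q - P * Q ∈ carrier
  sot_closed : ∀ T : H →L[ℂ] H,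
    (∀ (s : Finset H) (ε : ℝ), 0 < ε → ∃ P ∈ carrier, ∀ x ∈ s, ‖T x - P x‖ < ε) → T ∈ carrier

variable {H : Type*} [NormedAddCommGroup H] [InnerProductSpace ℂ H] [CompleteSpace H]

/-- `Alg L`: the algebra of all bounded operators `T` with `T M ⊆ M` for every `M` in `L`. -/
def AlgL (L : CSL H) : Subalgebra ℂ (H →L[ℂ] H) where
  carrier := {T | ∀ P ∈ L.carrier, ∀ x : H, P x = x → P (T x) = T x}
  mul_mem' := fun ha hb P hP x hx => ha P hP _ (hb P hP x hx)
  add_mem' := fun {a b} ha hb P hP x hx => by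
    have h1 := ha P hP x hx
    have h2 := hb P hP x hx
    change P (a x + b x) = a x + b x
    rw [map_add, h1, h2]
  algebraMap_mem' := fun r P hP x hx => by
    change P (r • x) = r • x
    rw [map_smul, hx]

/-- the Jacobson radical of `Alg L`, as a set -/
def rad (L : CSL H) : Set (AlgL L) := (Ring.jacobson (AlgL L) : Set (AlgL L))

/-- `Hom(L, 2)`: the lattice homomorphisms of `L` into the two element lattice (`true` is `1`,
`false` is `0`) which send `0` to `0` and `1` to `1`. -/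
structure Hom2 (L : CSL H) where
  /-- the underlying map -/
  toFun : L.carrier → Bool
  map_zero : toFun ⟨0, L.zero_mem⟩ = false
  map_one : toFun ⟨1, L.one_mem⟩ = true
  map_inf : ∀ P Q : L.carrier,
    toFun ⟨P * Q, L.inf_mem P P.2 Q Q.2⟩ = (toFun P && toFun Q)
  map_sup : ∀ P Q : L.carrier,
    toFun ⟨P + Q - P * Q, L.sup_mem P P.2 Q Q.2⟩ = (toFun P || toFun Q)

/-- The seminorm `‖T‖_φ = inf {‖E T E‖ : E an interval of L, φ(E) = 1}`; the intervals `E` with
`φ(E) = 1` are the `M₁ - M₂` with `M₂ ≤ M₁` in `L`, `φ(M₁) = 1` and `φ(M₂) = 0`. -/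
noncomputable def seminormAt (L : CSL H) (φ : Hom2 L) (T : H →L[ℂ] H) : ℝ :=
  sInf {r : ℝ | ∃ M₁ M₂ : L.carrier, (M₁ : H →L[ℂ] H) * M₂ = M₂ ∧ φ.toFun M₁ = true ∧
    φ.toFun M₂ = false ∧
    r = ‖((M₁ : H →L[ℂ] H) - (M₂ : H →L[ℂ] H)) * T * ((M₁ : H →L[ℂ] H) - (M₂ : H →L[ℂ] H))‖}

/-- A finite subnest `0 = D 0 ≤ D 1 ≤ ... ≤ D N = 1` of `L`. -/
structure Subnest (L : CSL H) where
  /-- the number of blocks -/
  N : ℕ
  /-- the projections of the subnest -/
  D : ℕ → (H →L[ℂ] H)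
  mem : ∀ k, D k ∈ L.carrier
  mono : ∀ k, D k * D (k + 1) = D k
  zero : D 0 = 0
  top : D N = 1

/-- The block diagonal part `Δ_F(T) = ∑ E_k T E_k`, `E_k = D (k+1) - D k`, of `T` with respect
to the finite subnest `F`. -/
noncomputable def Subnest.diag {L : CSL H} (F : Subnest L) (T : H →L[ℂ] H) : H →L[ℂ] H :=
  ∑ k ∈ range F.N, (F.D (k + 1) - F.D k) * T * (F.D (k + 1) - F.D k)

/-- The spectral size of `T` in `Alg L`: the supremum of the spectral radii of the products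
`T S` with `S` in the closed unit ball of `Alg L`. -/
noncomputable def specSize (L : CSL H) (T : AlgL L) : ENNReal :=
  ⨆ S : {S : AlgL L // ‖S‖ ≤ 1}, spectralRadius ℂ (T * (S : AlgL L))

/-! ### translation to the helper files -/

/-- the same lattice for the helper files -/
def toHop (L : CSL H) : Hop.CSL H :=
  ⟨L.carrier, L.proj, L.comm, L.zero_mem, L.one_mem, L.inf_mem, L.sup_mem, L.sot_closed⟩

theorem AlgL_eq (L : CSL H) : AlgL L = Hop.algL (toHop L) := by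
  apply SetLike.ext
  intro T
  constructor
  · intro h P hP
    have hP' : P * P = P := Hop.mul_self_proj (L.proj P hP)
    ext x
    have h1 : P (P x) = P x := by
      have := congrArg (fun Z : H →L[ℂ] H => Z x) hP'
      exact this
    have h2 := h P hP (P x) h1
    change (1 - P) (T (P x)) = 0
    have h3 : (1 - P) (T (P x)) = T (P x) - P (T (P x)) := rfl
    rw [h3, h2, sub_self]
  · intro h P hP x hx
    have h1 : (1 - P) * T * P = 0 := h P hP
    have h2 := congrArg (fun Z : H →L[ℂ] H => Z x) h1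
    have h3 : T (P x) - P (T (P x)) = 0 := h2
    rw [hx] at h3
    exact (sub_eq_zero.mp h3).symm

/-- if the predicate `ψ` restricts to `φ`, the two seminorms agree -/
theorem seminorm_eq (L : CSL H) (φ : Hom2 L) (ψ : (H →L[ℂ] H) → Prop)
    (h : ∀ P : L.carrier, ψ P ↔ φ.toFun P = true) (T : H →L[ℂ] H) :
    Hop.phiNorm (toHop L) ψ T = seminormAt L φ T := by
  unfold Hop.phiNorm seminormAt
  congr 1
  ext r
  constructor
  · rintro ⟨E, ⟨M₁, h₁, M₂, h₂, h12, hf1, hf2, rfl⟩, rfl⟩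
    refine ⟨⟨M₁, h₁⟩, ⟨M₂, h₂⟩, ?_, (h ⟨M₁, h₁⟩).mp hf1, ?_, rfl⟩
    · change M₁ * M₂ = M₂
      rw [L.comm M₁ h₁ M₂ h₂]; exact h12
    · rw [← Bool.not_eq_true]
      exact fun h3 => hf2 ((h ⟨M₂, h₂⟩).mpr h3)
  · rintro ⟨M₁, M₂, h12, hf1, hf2, rfl⟩
    refine ⟨_, ⟨M₁, M₁.2, M₂, M₂.2, ?_, (h M₁).mpr hf1, ?_, rfl⟩, rfl⟩
    · rw [← L.comm M₁ M₁.2 M₂ M₂.2]; exact h12
    · rw [h M₂, hf2]; simp

theorem exists_pred (L : CSL H) (φ : Hom2 L) : ∃ ψ : (H →L[ℂ] H) → Prop,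
    Hop.IsHom2 (toHop L) ψ ∧
      ∀ T : H →L[ℂ] H, Hop.phiNorm (toHop L) ψ T = seminormAt L φ T := by
  have hψ : ∀ P : L.carrier,
      (∃ h : (P : H →L[ℂ] H) ∈ L.carrier, φ.toFun ⟨P, h⟩ = true) ↔ φ.toFun P = true :=
    fun P => ⟨fun ⟨_, h⟩ => h, fun h => ⟨P.2, h⟩⟩
  refine ⟨fun P => ∃ h : P ∈ L.carrier, φ.toFun ⟨P, h⟩ = true, ?_, seminorm_eq L φ _ hψ⟩
  refine ⟨⟨L.one_mem, φ.map_one⟩, ?_, ?_, ?_⟩
  · rintro ⟨h1, h2⟩
    rw [φ.map_zero] at h2
    exact Bool.false_ne_true h2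
  · intro P hP Q hQ
    have h1 := hψ ⟨P * Q, L.inf_mem P hP Q hQ⟩
    have h2 := hψ ⟨P, hP⟩
    have h3 := hψ ⟨Q, hQ⟩
    have h4 := φ.map_inf ⟨P, hP⟩ ⟨Q, hQ⟩
    simp only at h1 h2 h3 h4
    rw [h1, h2, h3, h4, Bool.and_eq_true]
  · intro P hP Q hQ
    have h1 := hψ ⟨P + Q - P * Q, L.sup_mem P hP Q hQ⟩
    have h2 := hψ ⟨P, hP⟩
    have h3 := hψ ⟨Q, hQ⟩
    have h4 := φ.map_sup ⟨P, hP⟩ ⟨Q, hQ⟩
    simp only at h1 h2 h3 h4
    rw [h1, h2, h3, h4, Bool.or_eq_true]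

theorem exists_hom (L : CSL H) (ψ : (H →L[ℂ] H) → Prop) (hψ : Hop.IsHom2 (toHop L) ψ) :
    ∃ φ : Hom2 L, ∀ T : H →L[ℂ] H, Hop.phiNorm (toHop L) ψ T = seminormAt L φ T := by
  classical
  let φ : Hom2 L :=
    { toFun := fun P => decide (ψ P)
      map_zero := decide_eq_false hψ.zero
      map_one := decide_eq_true hψ.one
      map_inf := fun P Q => by
        have := hψ.inf P P.2 Q Q.2
        simp only [← Bool.decide_and, this]
      map_sup := fun P Q => by
        have := hψ.sup P P.2 Q Q.2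
        simp only [← Bool.decide_or, this] }
  exact ⟨φ, seminorm_eq L φ ψ (fun P => by simp [φ])⟩

open Pool.Agent.Y283.CSLQ in
/-- the facts of the helper files, for a subalgebra equal to `Alg L` -/
theorem facts (L : CSL H) (A : Subalgebra ℂ (H →L[ℂ] H)) (hA : A = Hop.algL (toHop L)) (T : A) :
    (T ∈ Ring.jacobson A ↔
        ∀ φ, Hop.IsHom2 (toHop L) φ → Hop.phiNorm (toHop L) φ (T : H →L[ℂ] H) = 0) ∧
    (∀ φ, Hop.IsHom2 (toHop L) φ → Hop.phiNorm (toHop L) φ (T : H →L[ℂ] H) ≤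
        Metric.infDist T (Ring.jacobson A : Set A)) ∧
    (∀ c : ℝ, 0 ≤ c → (∀ φ, Hop.IsHom2 (toHop L) φ →
        Hop.phiNorm (toHop L) φ (T : H →L[ℂ] H) ≤ c) →
        Metric.infDist T (Ring.jacobson A : Set A) ≤ c) ∧
    (∀ (N : ℕ) (D : ℕ → (H →L[ℂ] H)), Hop.IsChn (toHop L) N D →
        Metric.infDist T (Ring.jacobson A : Set A) ≤ ‖Hop.bdiag N D (T : H →L[ℂ] H)‖) ∧
    (∀ c : ℝ, Metric.infDist T (Ring.jacobson A : Set A) < c →
        ∃ (N : ℕ) (D : ℕ → (H →L[ℂ] H)), Hop.IsChn (toHop L) N D ∧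
          ‖Hop.bdiag N D (T : H →L[ℂ] H)‖ ≤ c) ∧
    (∀ S : A, ‖S‖ ≤ 1 → ∀ z ∈ spectrum ℂ (T * S),
        ‖z‖ ≤ Metric.infDist T (Ring.jacobson A : Set A)) ∧
    (∀ r : ℝ, 0 ≤ r → (∀ S : A, ‖S‖ ≤ 1 → spectralRadius ℂ (T * S) ≤ ENNReal.ofReal r) →
        Metric.infDist T (Ring.jacobson A : Set A) ≤ 1202 * r) ∧
    (∀ η : ℝ, Metric.infDist T (Ring.jacobson A : Set A) < η →
        ∃ M : ℝ, 0 ≤ M ∧ ∀ l : List A, (∀ S ∈ l, ‖S‖ ≤ 1) →
          ‖(l.map (fun S => T * S)).prod‖ ≤ M * η ^ l.length) := by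
  subst hA
  refine ⟨Hop.result (toHop L) T, phiNorm_le_infDist (toHop L) T, infDist_le_of_phi (toHop L) T,
    fun N D hD => infDist_le_bdiag (toHop L) hD T, fun c hc => ?_,
    spectrum_le_infDist (toHop L) T, infDist_le_of_spectralRadius (toHop L) T,
    infDist_growth (toHop L) T⟩
  obtain ⟨N, D, hD, hb⟩ := exists_chain_infDist (toHop L) T c hc
  exact ⟨N, D, hD, norm_bdiag_le (toHop L) hD T c (le_trans Metric.infDist_nonneg hc.le)
    (fun k hk => (hb k hk).le)⟩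

/-- **The distance to the Jacobson radical of a CSL algebra.**  Let `L` be any commutative
subspace lattice on a complex Hilbert space and `T` in `Alg L`.
* (Hopenwasser's question) `T` is in the Jacobson radical iff `‖T‖_φ = 0` for all `φ` in
  `Hom(L, 2)`;
* the distance from `T` to the radical is the supremum of the `‖T‖_φ`;
* it is the infimum of `‖Δ_F(T)‖` over the finite subnests `F` of `L`;
* it is at least the supremum of the spectral radii of `T S`, `S` in the unit ball of `Alg L`,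
  and at most `1202` times that supremum;
* for every `η` greater than the distance there is `M` with
  `‖T S₁ T S₂ ⋯ T S_m‖ ≤ M η ^ m` for all `m` and all `S₁, ..., S_m` in the unit ball. -/
theorem result (L : CSL H) (T : AlgL L) :
    (T ∈ rad L ↔ ∀ φ : Hom2 L, seminormAt L φ (T : H →L[ℂ] H) = 0) ∧
    Metric.infDist T (rad L) = ⨆ φ : Hom2 L, seminormAt L φ (T : H →L[ℂ] H) ∧
    Metric.infDist T (rad L) = ⨅ F : Subnest L, ‖F.diag (T : H →L[ℂ] H)‖ ∧
    specSize L T ≤ ENNReal.ofReal (Metric.infDist T (rad L)) ∧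
    ENNReal.ofReal (Metric.infDist T (rad L)) ≤ 1202 * specSize L T ∧
    ∀ η : ℝ, Metric.infDist T (rad L) < η → ∃ M : ℝ, ∀ l : List (AlgL L),
      (∀ S ∈ l, ‖S‖ ≤ 1) → ‖(l.map (fun S => T * S)).prod‖ ≤ M * η ^ l.length := by
  obtain ⟨f1, f2, f3, f4, f5, f6, f7, f8⟩ := facts L (AlgL L) (AlgL_eq L) T
  have hd0 : 0 ≤ Metric.infDist T (rad L) := Metric.infDist_nonneg
  have hle : ∀ φ : Hom2 L, seminormAt L φ (T : H →L[ℂ] H) ≤ Metric.infDist T (rad L) := by
    intro φ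
    obtain ⟨ψ, hψ, he⟩ := exists_pred L φ
    rw [← he]
    exact f2 ψ hψ
  have hnn : ∀ φ : Hom2 L, 0 ≤ seminormAt L φ (T : H →L[ℂ] H) := by
    intro φ
    obtain ⟨ψ, hψ, he⟩ := exists_pred L φ
    rw [← he]
    exact Pool.Agent.Y283.CSLQ.phiNorm_nonneg _ _ _
  refine ⟨?_, ?_, ?_, ?_, ?_, ?_⟩
  · change T ∈ Ring.jacobson (AlgL L) ↔ _
    rw [f1]
    constructor
    · intro h φ
      obtain ⟨ψ, hψ, he⟩ := exists_pred L φ
      rw [← he]
      exact h ψ hψ
    · intro h ψ hψ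
      obtain ⟨φ, he⟩ := exists_hom L ψ hψ
      rw [he]
      exact h φ
  · apply le_antisymm
    · apply f3 _ (Real.iSup_nonneg hnn)
      intro ψ hψ
      obtain ⟨φ, he⟩ := exists_hom L ψ hψ
      rw [he]
      exact le_ciSup (f := fun φ : Hom2 L => seminormAt L φ (T : H →L[ℂ] H))
        ⟨Metric.infDist T (rad L), by rintro _ ⟨φ, rfl⟩; exact hle φ⟩ φ
    · exact Real.iSup_le hle hd0
  · have hbdd : BddBelow (Set.range fun F : Subnest L => ‖F.diag (T : H →L[ℂ] H)‖) :=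
      ⟨0, by rintro _ ⟨F, rfl⟩; exact norm_nonneg _⟩
    have hlow : ∀ F : Subnest L, Metric.infDist T (rad L) ≤ ‖F.diag (T : H →L[ℂ] H)‖ :=
      fun F => f4 F.N F.D ⟨F.mem, F.mono, F.zero, F.top⟩
    have hne : Nonempty (Subnest L) := by
      obtain ⟨N, D, hD, -⟩ := f5 (Metric.infDist T (rad L) + 1) (by
        change Metric.infDist T (rad L) < _; linarith)
      exact ⟨⟨N, D, hD.mem, hD.mono, hD.zero, hD.top⟩⟩
    apply le_antisymm
    · exact le_ciInf hlow
    · apply le_of_forall_pos_le_add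
      intro δ hδ
      obtain ⟨N, D, hD, hb⟩ := f5 (Metric.infDist T (rad L) + δ) (by
        change Metric.infDist T (rad L) < _; linarith)
      exact (ciInf_le hbdd ⟨N, D, hD.mem, hD.mono, hD.zero, hD.top⟩).trans hb
  · unfold specSize
    apply iSup_le
    rintro ⟨S, hS⟩
    unfold spectralRadius
    apply iSup₂_le
    intro z hz
    have h1 := f6 S hS z hz
    rw [← ENNReal.ofReal_coe_nnreal, coe_nnnorm]
    exact ENNReal.ofReal_le_ofReal h1
  · by_cases htop : specSize L T = ⊤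
    · rw [htop, ENNReal.mul_top (by norm_num)]
      exact le_top
    · have h1 := f7 (specSize L T).toReal ENNReal.toReal_nonneg (by
        intro S hS
        rw [ENNReal.ofReal_toReal htop]
        exact le_iSup (fun S : {S : AlgL L // ‖S‖ ≤ 1} => spectralRadius ℂ (T * (S : AlgL L)))
          ⟨S, hS⟩)
      calc ENNReal.ofReal (Metric.infDist T (rad L))
          ≤ ENNReal.ofReal (1202 * (specSize L T).toReal) := ENNReal.ofReal_le_ofReal h1
        _ = 1202 * specSize L T := by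
          rw [ENNReal.ofReal_mul (by norm_num), ENNReal.ofReal_toReal htop]
          norm_num
  · intro η hη
    obtain ⟨M, -, hM⟩ := f8 η hη
    exact ⟨M, hM⟩

end Pool.Agent.Results.MP_b027ec_an.RadicalDistance
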